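import Mathlib
import Pool.Agent.Y704.PC.Stm

/-!
Project PC (helper704), part CHAIN: the chain of copies of a connected locally connected Hausdorff
space is closed, connected and locally connected.
-/

set_option autoImplicit false
set_option linter.unusedSectionVars false

open Set Topology Filter

namespace Pool.Agent.Y381.PC

open Pool.Agent.Y704.PC

/-- local connectedness of a subset, tested with connected subsets of the ambient space -/
theorem lc_sub {X : Type*} [TopologicalSpace X] (S : Set X)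
    (h : ∀ x ∈ S, ∀ U ∈ 𝓝 x, ∃ V ∈ 𝓝 x, ∀ y ∈ V, y ∈ S → ∃ A : Set X,
      A ⊆ S ∧ IsPreconnected A ∧ x ∈ A ∧ y ∈ A ∧ A ⊆ U) : LocallyConnectedSpace ↥S := by
  apply lc_of_joined
  intro x U hU
  obtain ⟨W, hW, hWU⟩ := mem_nhds_subtype S x U |>.1 hU
  obtain ⟨V, hV, hVA⟩ := h x.1 x.2 W hW
  refine ⟨Subtype.val ⁻¹' V, mem_nhds_subtype S x _ |>.2 ⟨V, hV, subset_rfl⟩, ?_⟩
  intro y hy
  obtain ⟨A, hAS, hA, hxA, hyA, hAW⟩ := hVA y.1 hy y.2
  refine ⟨Subtype.val ⁻¹' A, ?_, hxA, hyA, ?_⟩
  · rw [← (Topology.IsInducing.subtypeVal (t := S)).isPreconnected_image]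
    rw [Subtype.image_preimage_coe, inter_eq_right.2 hAS]
    exact hA
  · exact (preimage_mono hAW).trans hWU

section

variable {Z : Type} [TopologicalSpace Z] (e o : Z)

/-- the embedding of the copy number `k` -/
def emb (k : ℕ) (p : Z) : ℕ → Z := fun j => if j < k then e else if j = k then p else o

theorem emb_lt {k j : ℕ} (p : Z) (h : j < k) : emb e o k p j = e := by
  simp [emb, h]

theorem emb_eq (k : ℕ) (p : Z) : emb e o k p k = p := by
  simp [emb]

theorem emb_gt {k j : ℕ} (p : Z) (h : k < j) : emb e o k p j = o := by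
  simp [emb, not_lt.2 h.le, h.ne']

theorem emb_cont (k : ℕ) : Continuous (emb e o k) := by
  refine continuous_pi fun j => ?_
  unfold emb
  split_ifs
  · exact continuous_const
  · exact continuous_id
  · exact continuous_const

theorem emb_mem (k : ℕ) (p : Z) : emb e o k p ∈ chain e o := by
  intro i j hij
  rcases lt_or_ge i k with h | h
  · exact Or.inl (emb_lt e o p h)
  · exact Or.inr (emb_gt e o p (h.trans_lt hij))

theorem emb_succ (k : ℕ) : emb e o (k + 1) o = emb e o k e := by
  funext j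
  rcases lt_trichotomy j k with h | h | h
  · rw [emb_lt e o _ h, emb_lt e o _ (h.trans (Nat.lt_succ_self k))]
  · subst h
    rw [emb_eq, emb_lt e o _ (Nat.lt_succ_self j)]
  · rw [emb_gt e o _ h]
    rcases Nat.eq_or_lt_of_le (Nat.succ_le_of_lt h) with h1 | h1
    · have : j = k + 1 := h1.symm
      rw [this, emb_eq]
    · rw [emb_gt e o _ h1]

/-- a point of the chain with given restrictions is on the copy `k` -/
theorem eq_emb {k : ℕ} {x : ℕ → Z} (h1 : ∀ j < k, x j = e) (h2 : ∀ j, k < j → x j = o) :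
    x = emb e o k (x k) := by
  funext j
  rcases lt_trichotomy j k with h | h | h
  · rw [emb_lt e o _ h, h1 j h]
  · subst h
    rw [emb_eq]
  · rw [emb_gt e o _ h, h2 j h]

/-- the points of the chain -/
theorem cases_chain {x : ℕ → Z} (hx : x ∈ chain e o) :
    x = (fun _ => e) ∨ ∃ k, x k ≠ e ∧ x = emb e o k (x k) := by
  classical
  by_cases h : ∀ j, x j = e
  · exact Or.inl (funext h)
  · right
    push Not at h
    refine ⟨Nat.find h, Nat.find_spec h, ?_⟩
    apply eq_emb
    · intro j hj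
      by_contra hne
      exact Nat.find_min h hj hne
    · intro j hj
      rcases hx _ _ hj with h1 | h1
      · exact absurd h1 (Nat.find_spec h)
      · exact h1

theorem const_mem : (fun _ => e : ℕ → Z) ∈ chain e o := fun _ _ _ => Or.inl rfl

theorem closed_chain [T2Space Z] : IsClosed (chain e o) := by
  have : chain e o = ⋂ j : ℕ, ⋂ k : ℕ, ⋂ _ : j < k, ({x : ℕ → Z | x j = e} ∪ {x | x k = o}) := by
    ext x
    simp [chain]
  rw [this]
  refine isClosed_iInter fun j => isClosed_iInter fun k => isClosed_iInter fun _ => ?_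
  exact (isClosed_eq (continuous_apply j) continuous_const).union
    (isClosed_eq (continuous_apply k) continuous_const)

theorem preconn_chain [PreconnectedSpace Z] : IsPreconnected (chain e o) := by
  have h : IsPreconnected (⋃ n : ℕ, range (emb e o n)) := by
    apply IsPreconnected.iUnion_of_chain
    · intro n
      exact isPreconnected_range (emb_cont e o n)
    · intro n
      refine ⟨emb e o n e, ⟨e, rfl⟩, ⟨o, ?_⟩⟩
      exact emb_succ e o n
  refine h.subset_closure ?_ ?_
  · intro x hx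
    obtain ⟨n, p, rfl⟩ := mem_iUnion.1 hx
    exact emb_mem e o n p
  · intro x hx
    rcases cases_chain e o hx with rfl | ⟨k, _, h2⟩
    · apply mem_closure_of_tendsto (f := fun n : ℕ => emb e o n e) (b := atTop)
      · rw [tendsto_pi_nhds]
        intro j
        apply tendsto_nhds_of_eventually_eq
        filter_upwards [eventually_gt_atTop j] with n hn
        exact emb_lt e o e hn
      · exact Eventually.of_forall fun n => mem_iUnion.2 ⟨n, e, rfl⟩
    · rw [h2]
      exact subset_closure (mem_iUnion.2 ⟨k, x k, rfl⟩)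

/-- the shift by `N` places -/
def sh (N : ℕ) (z : ℕ → Z) : ℕ → Z := fun j => if j < N then e else z (j - N)

theorem sh_cont (N : ℕ) : Continuous (sh e N : (ℕ → Z) → (ℕ → Z)) := by
  refine continuous_pi fun j => ?_
  unfold sh
  split_ifs
  · exact continuous_const
  · exact continuous_apply _

theorem sh_mem (N : ℕ) {z : ℕ → Z} (hz : z ∈ chain e o) : sh e N z ∈ chain e o := by
  intro j k hjk
  by_cases hj : j < N
  · left
    simp [sh, hj]
  · have hk : ¬ k < N := by omega
    simp only [sh, hj, hk, if_false]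
    exact hz _ _ (by omega)

theorem nbd (x : ℕ → Z) {U : Set (ℕ → Z)} (hU : U ∈ 𝓝 x) :
    ∃ N : ℕ, ∀ y : ℕ → Z, (∀ j < N, y j = x j) → y ∈ U := by
  rw [nhds_pi, Filter.mem_pi] at hU
  obtain ⟨I, hI, t, ht, hIU⟩ := hU
  obtain ⟨N, hN⟩ := hI.bddAbove
  refine ⟨N + 1, fun y hy => hIU ?_⟩
  intro i hi
  rw [hy i (Nat.lt_succ_of_le (hN hi))]
  exact mem_of_mem_nhds (ht i)

theorem lc_chain [T2Space Z] [ConnectedSpace Z] [LocallyConnectedSpace Z] (heo : e ≠ o) :
    LocallyConnectedSpace ↥(chain e o) := by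
  have hlc : ∀ q : Z, ∀ U ∈ 𝓝 q, ∃ V ∈ 𝓝 q, IsPreconnected V ∧ V ⊆ U :=
    locallyConnectedSpace_iff_connected_subsets.1 inferInstance
  apply lc_sub
  intro x hx U hU
  rcases cases_chain e o hx with h0 | ⟨k, hke, hxk⟩
  · subst h0
    obtain ⟨N, hN⟩ := nbd _ hU
    refine ⟨{y | ∀ j ∈ Finset.range (N + 1), y j ≠ o}, ?_, ?_⟩
    · have : {y : ℕ → Z | ∀ j ∈ Finset.range (N + 1), y j ≠ o}
          = ⋂ j ∈ Finset.range (N + 1), {y : ℕ → Z | y j ≠ o} := by
        ext y; simp
      rw [this]
      refine (Filter.biInter_finset_mem _).2 fun j _ => ?_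
      exact (isOpen_ne_fun (continuous_apply j) continuous_const).mem_nhds heo
    · intro y hy hyc
      have hye : ∀ j < N, y j = e := by
        intro j hj
        rcases hyc j N hj with h | h
        · exact h
        · exact absurd h (hy N (by simp))
      refine ⟨sh e N '' chain e o, ?_, (preconn_chain e o).image _ (sh_cont e N).continuousOn,
        ?_, ?_, ?_⟩
      · rintro _ ⟨z, hz, rfl⟩
        exact sh_mem e o N hz
      · refine ⟨fun _ => e, const_mem e o, ?_⟩
        funext j
        simp [sh]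
      · refine ⟨fun j => y (j + N), fun i j hij => hyc _ _ (by omega), ?_⟩
        funext j
        by_cases hj : j < N
        · simp [sh, hj, hye j hj]
        · simp only [sh, hj, if_false]
          congr 1
          omega
      · rintro _ ⟨z, hz, rfl⟩
        apply hN
        intro j hj
        simp [sh, hj]
  · -- the copy `k`
    have key : ∀ m : ℕ, ∀ q : Z, emb e o m q = x → ∃ A ∈ 𝓝 q, IsPreconnected A ∧
        emb e o m '' A ⊆ U := by
      intro m q hq
      have h1 : emb e o m ⁻¹' U ∈ 𝓝 q := by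
        apply (emb_cont e o m).continuousAt.preimage_mem_nhds
        rw [hq]; exact hU
      obtain ⟨A, hA, hA2, hA3⟩ := hlc q _ h1
      exact ⟨A, hA, hA2, by rwa [image_subset_iff]⟩
    have hsub : ∀ m : ℕ, ∀ A : Set Z, emb e o m '' A ⊆ chain e o := by
      rintro m A _ ⟨p, _, rfl⟩
      exact emb_mem e o m p
    have hpre : ∀ m : ℕ, ∀ A : Set Z, IsPreconnected A → IsPreconnected (emb e o m '' A) :=
      fun m A hA => hA.image _ (emb_cont e o m).continuousOn
    have hgt : ∀ y ∈ chain e o, ∀ m, y m ≠ e → ∀ j, m < j → y j = o := by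
      intro y hy m hm j hj
      rcases hy m j hj with h | h
      · exact absurd h hm
      · exact h
    have hlt : ∀ y ∈ chain e o, ∀ m, y m ≠ o → ∀ j < m, y j = e := by
      intro y hy m hm j hj
      rcases hy j m hj with h | h
      · exact h
      · exact absurd h hm
    have hne : ∀ m : ℕ, ∀ c : Z, x m ≠ c → {y : ℕ → Z | y m ≠ c} ∈ 𝓝 x := fun m c h =>
      (isOpen_ne_fun (continuous_apply m) continuous_const).mem_nhds h
    obtain ⟨A, hA, hA2, hA3⟩ := key k (x k) hxk.symm
    have hAn : {y : ℕ → Z | y k ∈ A} ∈ 𝓝 x := (continuous_apply k).continuousAt.preimage_mem_nhds hA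
    by_cases hko : x k = o
    · rcases Nat.eq_zero_or_pos k with hk0 | hkp
      · subst hk0
        refine ⟨{y | y 0 ∈ A} ∩ {y | y 0 ≠ e}, inter_mem hAn (hne 0 e hke), ?_⟩
        rintro y ⟨hy1, hy2⟩ hyc
        refine ⟨emb e o 0 '' A, hsub 0 A, hpre 0 A hA2, ⟨x 0, mem_of_mem_nhds hA, hxk.symm⟩,
          ⟨y 0, hy1, ?_⟩, hA3⟩
        exact (eq_emb e o (fun j hj => absurd hj (Nat.not_lt_zero j)) (hgt y hyc 0 hy2)).symm
      · obtain ⟨m, rfl⟩ : ∃ m, k = m + 1 := ⟨k - 1, by omega⟩
        have hxm : emb e o m e = x := by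
          rw [hxk, hko]; exact (emb_succ e o m).symm
        obtain ⟨B, hB, hB2, hB3⟩ := key m e hxm
        have hxme : x m = e := by rw [← hxm, emb_eq]
        have hBn : {y : ℕ → Z | y m ∈ B} ∈ 𝓝 x :=
          (continuous_apply m).continuousAt.preimage_mem_nhds (by rw [hxme]; exact hB)
        refine ⟨({y | y (m + 1) ∈ A} ∩ {y | y (m + 1) ≠ e}) ∩ ({y | y m ∈ B} ∩ {y | y m ≠ o}),
          inter_mem (inter_mem hAn (hne _ _ hke)) (inter_mem hBn (hne _ _ (by rw [hxme]; exact heo))),
          ?_⟩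
        rintro y ⟨⟨hy1, hy2⟩, hy3, hy4⟩ hyc
        rcases hyc m (m + 1) (Nat.lt_succ_self m) with h | h
        · refine ⟨emb e o (m + 1) '' A, hsub _ A, hpre _ A hA2,
            ⟨x (m + 1), mem_of_mem_nhds hA, hxk.symm⟩, ⟨y (m + 1), hy1, ?_⟩, hA3⟩
          refine (eq_emb e o ?_ (hgt y hyc _ hy2)).symm
          intro j hj
          rcases Nat.lt_succ_iff_lt_or_eq.1 hj with h1 | h1
          · exact hlt y hyc m hy4 j h1
          · rw [h1, h]
        · refine ⟨emb e o m '' B, hsub _ B, hpre _ B hB2,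
            ⟨e, mem_of_mem_nhds hB, hxm⟩, ⟨y m, hy3, ?_⟩, hB3⟩
          refine (eq_emb e o (hlt y hyc m hy4) ?_).symm
          intro j hj
          rcases Nat.eq_or_lt_of_le (Nat.succ_le_of_lt hj) with h1 | h1
          · rw [← h1]; exact h
          · exact hgt y hyc _ hy2 j h1
    · refine ⟨{y | y k ∈ A} ∩ ({y | y k ≠ e} ∩ {y | y k ≠ o}),
        inter_mem hAn (inter_mem (hne k e hke) (hne k o hko)), ?_⟩
      rintro y ⟨hy1, hy2, hy3⟩ hyc
      refine ⟨emb e o k '' A, hsub k A, hpre k A hA2, ⟨x k, mem_of_mem_nhds hA, hxk.symm⟩,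
        ⟨y k, hy1, ?_⟩, hA3⟩
      exact (eq_emb e o (hlt y hyc k hy3) (hgt y hyc k hy2)).symm

end

/-- the chain of copies is closed, connected and locally connected -/
theorem t_chain : StChain := by
  intro Z _ _ _ _ e o heo
  refine ⟨closed_chain e o, ?_, lc_chain e o heo⟩
  exact isConnected_iff_connectedSpace.1 ⟨⟨_, const_mem e o⟩, preconn_chain e o⟩

end Pool.Agent.Y381.PC
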